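import Pool.Agent.Helper76.T5.Frame

/-!
# Equality in (P): symmetric trilinear forms
-/

set_option autoImplicit false

open scoped ComplexConjugate

namespace Pool.Agent.Helper53.T5

open Pool.Agent.Helper76.T5

variable {V : Type*} [NormedAddCommGroup V] [InnerProductSpace ℂ V]
variable {Φ : V →ₗ[ℂ] V →ₗ[ℂ] V →ₗ[ℂ] ℂ}

/-- Takagi data of `Φ z`. -/
theorem tak [FiniteDimensional ℂ V] (h : IsCub Φ) {z : V} (hz : ‖z‖ = 1) :
    ∃ (e : V) (b1 b2 : ℝ), ‖e‖ = 1 ∧ 0 ≤ b2 ∧ b2 ≤ b1 ∧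
      (∀ x y : V, ‖Φ z x y‖ ≤ b1 * (‖inner ℂ e x‖ * ‖inner ℂ e y‖)
        + b2 * (‖x - inner ℂ e x • e‖ * ‖y - inner ℂ e y • e‖)) ∧
      (∀ al be : ℝ, 0 ≤ al → 0 ≤ be →
        al * b1 + be * b2 ≤ Real.sqrt (al ^ 2 + al * be + be ^ 2)) := by
  haveI : Nontrivial V := ⟨⟨z, 0, fun hz0 => by rw [hz0, norm_zero] at hz; exact zero_ne_one hz⟩⟩
  obtain ⟨e, b1, b2, he, hb2, h12, hee, horth, hbd, halt⟩ :=
    two_vals (Φ z) (fun x y => h.s23 z x y)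
  refine ⟨e, b1, b2, he, hb2, h12, ?_, ?_⟩
  · intro x y
    set x' := x - inner ℂ e x • e with hx'
    set y' := y - inner ℂ e y • e with hy'
    have ox : inner ℂ e x' = 0 := inner_decomp he x
    have oy : inner ℂ e y' = 0 := inner_decomp he y
    have ex : x = inner ℂ e x • e + x' := by rw [hx']; abel
    have ey : y = inner ℂ e y • e + y' := by rw [hy']; abel
    have e1 : Φ z x y = inner ℂ e x * inner ℂ e y * b1 + Φ z x' y' := by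
      conv_lhs => rw [ex, ey]
      simp only [map_add, map_smul, LinearMap.add_apply, LinearMap.smul_apply, smul_eq_mul, hee,
        horth y' oy]
      have : Φ z x' e = 0 := by rw [h.s23]; exact horth x' ox
      rw [this]
      ring
    rw [e1]
    refine (norm_add_le _ _).trans (add_le_add ?_ ?_)
    · rw [norm_mul, norm_mul, Complex.norm_real, Real.norm_of_nonneg (hb2.trans h12)]
      exact le_of_eq (mul_comm _ _)
    · have := hbd x' y' ox oy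
      linarith
  · intro al be ha hb
    rcases halt with h0 | ⟨e', he', hee', hb'⟩
    · rw [h0]
      exact h.sing0 hz he hee (hb2.trans h12) ha hb
    · exact h.sing hz he he' hee' hee hb' h12 hb2 (horth e' hee') ha hb

/-- consequences of the bounds for the singular values -/
theorem b_bounds {b1 b2 : ℝ} (h2 : 0 ≤ b2) (h12 : b2 ≤ b1)
    (hf : ∀ al be : ℝ, 0 ≤ al → 0 ≤ be →
        al * b1 + be * b2 ≤ Real.sqrt (al ^ 2 + al * be + be ^ 2)) :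
    b1 ≤ 1 ∧ b2 < 1 ∧ (b1 + b2) ^ 2 ≤ 3 := by
  have h1 := hf 1 0 zero_le_one le_rfl
  have h3 := hf 1 1 zero_le_one zero_le_one
  have e1 : Real.sqrt ((1 : ℝ) ^ 2 + 1 * 0 + 0 ^ 2) = 1 := by norm_num
  have e3 : Real.sqrt ((1 : ℝ) ^ 2 + 1 * 1 + 1 ^ 2) = Real.sqrt 3 := by norm_num
  rw [e1] at h1
  rw [e3] at h3
  have h4 : (b1 + b2) ^ 2 ≤ 3 := by
    have h5 : b1 + b2 ≤ Real.sqrt 3 := by linarith
    calc (b1 + b2) ^ 2 ≤ (Real.sqrt 3) ^ 2 := pow_le_pow_left₀ (by linarith) h5 2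
      _ = 3 := Real.sq_sqrt (by norm_num)
  refine ⟨by linarith, ?_, h4⟩
  by_contra hc
  push Not at hc
  nlinarith

/-- equality in `‖Φ z x y‖ ≤ ‖z‖ ‖x‖ ‖y‖`, `z` a unit vector -/
theorem par_unit [FiniteDimensional ℂ V] (h : IsCub Φ) {x y z : V} (hz : ‖z‖ = 1) (hx : x ≠ 0)
    (hy : y ≠ 0) (heq : ‖x‖ * ‖y‖ ≤ ‖Φ z x y‖) :
    ∃ c : ℂ, y = c • x := by
  obtain ⟨e, b1, b2, he, hb2, h12, hbd, hf⟩ := tak h hz
  obtain ⟨hb1, hb2', -⟩ := b_bounds hb2 h12 hf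
  have h1 := heq.trans (hbd x y)
  have dx := norm_decomp he x
  have dy := norm_decomp he y
  set p := ‖inner ℂ e x‖ with hp
  set q := ‖inner ℂ e y‖ with hq
  set p' := ‖x - inner ℂ e x • e‖ with hp'
  set q' := ‖y - inner ℂ e y • e‖ with hq'
  have hp0 : 0 ≤ p := norm_nonneg _
  have hq0 : 0 ≤ q := norm_nonneg _
  have hp0' : 0 ≤ p' := norm_nonneg _
  have hq0' : 0 ≤ q' := norm_nonneg _
  have hX : 0 < ‖x‖ := norm_pos_iff.2 hx
  have hY : 0 < ‖y‖ := norm_pos_iff.2 hy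
  have cs : p * q + p' * q' ≤ ‖x‖ * ‖y‖ := by
    refine abs_le_of_sq_le_sq' ?_ (by positivity) |>.2
    rw [mul_pow, ← dx, ← dy]
    nlinarith [sq_nonneg (p * q' - p' * q)]
  have hpX : p ≤ ‖x‖ := abs_le_of_sq_le_sq' (by nlinarith [sq_nonneg p']) hX.le |>.2
  have hqY : q ≤ ‖y‖ := abs_le_of_sq_le_sq' (by nlinarith [sq_nonneg q']) hY.le |>.2
  have h2 : (1 - b2) * (p' * q') ≤ 0 := by
    have : 0 ≤ (1 - b1) * (p * q) := mul_nonneg (by linarith) (mul_nonneg hp0 hq0)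
    nlinarith
  have h3 : p' * q' = 0 := by
    have h4 : 0 ≤ p' * q' := mul_nonneg hp0' hq0'
    have h5 : p' * q' ≤ 0 := by
      by_contra hc
      push Not at hc
      nlinarith [mul_pos (sub_pos.2 hb2') hc]
    linarith
  have h4 : ‖x‖ * ‖y‖ ≤ p * q := by
    rw [h3, mul_zero, add_zero] at h1
    have : b1 * (p * q) ≤ 1 * (p * q) := mul_le_mul_of_nonneg_right hb1 (mul_nonneg hp0 hq0)
    linarith
  have h5 : p = ‖x‖ := by
    by_contra hc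
    have : p < ‖x‖ := lt_of_le_of_ne hpX hc
    have h6 : p * q ≤ p * ‖y‖ := mul_le_mul_of_nonneg_left hqY hp0
    nlinarith
  have h6 : q = ‖y‖ := by
    by_contra hc
    have : q < ‖y‖ := lt_of_le_of_ne hqY hc
    have h6 : p * q ≤ ‖x‖ * q := mul_le_mul_of_nonneg_right hpX hq0
    nlinarith
  have h7 : p' = 0 := by
    have : p' ^ 2 = 0 := by rw [h5] at dx; linarith
    exact pow_eq_zero_iff two_ne_zero |>.1 this
  have h8 : q' = 0 := by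
    have : q' ^ 2 = 0 := by rw [h6] at dy; linarith
    exact pow_eq_zero_iff two_ne_zero |>.1 this
  rw [hp', norm_eq_zero, sub_eq_zero] at h7
  rw [hq', norm_eq_zero, sub_eq_zero] at h8
  have h9 : inner ℂ e x ≠ 0 := by
    intro h0
    rw [h0, zero_smul] at h7
    exact hx h7
  refine ⟨inner ℂ e y / inner ℂ e x, ?_⟩
  calc y = inner ℂ e y • e := h8
    _ = (inner ℂ e y / inner ℂ e x) • (inner ℂ e x • e) := by
        rw [smul_smul, div_mul_cancel₀ _ h9]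
    _ = (inner ℂ e y / inner ℂ e x) • x := by rw [← h7]

theorem par [FiniteDimensional ℂ V] (h : IsCub Φ) {x y z : V} (hz : z ≠ 0) (hx : x ≠ 0)
    (hy : y ≠ 0) (heq : ‖z‖ * (‖x‖ * ‖y‖) ≤ ‖Φ z x y‖) :
    ∃ c : ℂ, y = c • x := by
  have hz0 : ‖z‖ ≠ 0 := norm_ne_zero_iff.2 hz
  have hzp : 0 < ‖z‖ := norm_pos_iff.2 hz
  refine par_unit h (z := ((‖z‖⁻¹ : ℝ) : ℂ) • z) (by simp [norm_smul, hz0]) hx hy ?_
  simp only [map_smul, LinearMap.smul_apply, smul_eq_mul, norm_mul,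
        Complex.norm_real, norm_inv, norm_norm]
  rw [← div_eq_inv_mul, le_div_iff₀ hzp]
  linarith

/-- equality in `‖Φ z x y‖ ≤ ‖z‖ ‖x‖ ‖y‖` forces all three vectors to be parallel -/
theorem par3 [FiniteDimensional ℂ V] (h : IsCub Φ) {x y z : V} (hz : z ≠ 0) (hx : x ≠ 0)
    (hy : y ≠ 0) (heq : ‖z‖ * (‖x‖ * ‖y‖) ≤ ‖Φ z x y‖) :
    (∃ c : ℂ, y = c • x) ∧ (∃ c : ℂ, z = c • x) := by
  refine ⟨par h hz hx hy heq, ?_⟩
  refine par h hy hx hz ?_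
  have e1 : Φ y x z = Φ z x y := by rw [h.s12 y x z, h.s23 x y z, h.s12 x z y]
  rw [e1]
  calc ‖y‖ * (‖x‖ * ‖z‖) = ‖z‖ * (‖x‖ * ‖y‖) := by ring
    _ ≤ _ := heq

/-- the equality case of the real inequality behind (P) -/
theorem pair_real_eq {x1 x1' x2 x2' y1 y1' y2 y2' X1 X2 Y1 Y2 b1 b2 : ℝ}
    (hx1 : 0 ≤ x1) (hx1' : 0 ≤ x1') (hx2 : 0 ≤ x2) (hx2' : 0 ≤ x2')
    (hy1 : 0 ≤ y1) (hy1' : 0 ≤ y1') (hy2 : 0 ≤ y2) (hy2' : 0 ≤ y2')
    (hX1 : 0 < X1) (hX2 : 0 < X2) (hY1 : 0 < Y1) (hY2 : 0 < Y2)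
    (e1 : x1 ^ 2 + x1' ^ 2 = X1 ^ 2) (e2 : x2 ^ 2 + x2' ^ 2 = X2 ^ 2)
    (e3 : y1 ^ 2 + y1' ^ 2 = Y1 ^ 2) (e4 : y2 ^ 2 + y2' ^ 2 = Y2 ^ 2)
    (o1 : x1 * y1 ≤ x1' * y1') (o2 : x2 * y2 ≤ x2' * y2') (h2 : 0 ≤ b2) (h12 : b2 ≤ b1)
    (hlt : X2 * Y1 < X1 * Y2)
    (hf : ∀ al be : ℝ, 0 ≤ al → 0 ≤ be →
        al * b1 + be * b2 ≤ Real.sqrt (al ^ 2 + al * be + be ^ 2))
    (heq : Real.sqrt ((X1 * Y2) ^ 2 + (X1 * Y2) * (X2 * Y1) + (X2 * Y1) ^ 2)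
      ≤ (b1 * (x1 * y2) + b2 * (x1' * y2')) + (b1 * (x2 * y1) + b2 * (x2' * y1'))) :
    x1' = 0 ∧ y2' = 0 ∧ x2 = 0 ∧ y1 = 0 := by
  set A := X1 * Y2 with hA
  set B := X2 * Y1 with hB
  have hA0 : 0 < A := mul_pos hX1 hY2
  have hB0 : 0 < B := mul_pos hX2 hY1
  obtain ⟨-, -, h3⟩ := b_bounds h2 h12 hf
  have cs1 : x1 * y2 + x1' * y2' ≤ A := by
    refine abs_le_of_sq_le_sq' ?_ hA0.le |>.2
    rw [hA, mul_pow, ← e1, ← e4]
    nlinarith [sq_nonneg (x1 * y2' - x1' * y2)]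
  have cs2 : x2 * y1 + x2' * y1' ≤ B := by
    refine abs_le_of_sq_le_sq' ?_ hB0.le |>.2
    rw [hB, mul_pow, ← e2, ← e3]
    nlinarith [sq_nonneg (x2 * y1' - x2' * y1)]
  have q1 : (x1 / X1) ^ 2 + (y1 / Y1) ^ 2 ≤ 1 := by
    rw [div_pow, div_pow, div_add_div _ _ (by positivity) (by positivity),
      div_le_one (by positivity), ← e1, ← e3]
    nlinarith [mul_self_le_mul_self (mul_nonneg hx1 hy1) o1]
  have q2 : (x2 / X2) ^ 2 + (y2 / Y2) ^ 2 ≤ 1 := by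
    rw [div_pow, div_pow, div_add_div _ _ (by positivity) (by positivity),
      div_le_one (by positivity), ← e2, ← e4]
    nlinarith [mul_self_le_mul_self (mul_nonneg hx2 hy2) o2]
  set u1 := x1 / X1 with hu1
  set u2 := x2 / X2 with hu2
  set w1 := y1 / Y1 with hw1
  set w2 := y2 / Y2 with hw2
  have f1 : x1 = X1 * u1 := by rw [hu1]; field_simp
  have f2 : x2 = X2 * u2 := by rw [hu2]; field_simp
  have f3 : y1 = Y1 * w1 := by rw [hw1]; field_simp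
  have f4 : y2 = Y2 * w2 := by rw [hw2]; field_simp
  have g1 : 0 ≤ u1 := div_nonneg hx1 hX1.le
  have g2 : 0 ≤ u2 := div_nonneg hx2 hX2.le
  have g3 : 0 ≤ w1 := div_nonneg hy1 hY1.le
  have g4 : 0 ≤ w2 := div_nonneg hy2 hY2.le
  have am : u1 * w2 + u2 * w1 ≤ 1 := by
    nlinarith [sq_nonneg (u1 - w2), sq_nonneg (u2 - w1)]
  have huw : 0 ≤ u2 * w1 := mul_nonneg g2 g3
  have hs : x1 * y2 + x2 * y1 = A * (u1 * w2) + B * (u2 * w1) := by
    rw [f1, f2, f3, f4]; ring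
  have hs2 : A * (u1 * w2) + B * (u2 * w1) ≤ A - (A - B) * (u2 * w1) := by
    have : A * (u1 * w2 + u2 * w1) ≤ A * 1 := mul_le_mul_of_nonneg_left am hA0.le
    nlinarith
  -- the chain
  have hfin := hf A B hA0.le hB0.le
  have hup : (b1 * (x1 * y2) + b2 * (x1' * y2')) + (b1 * (x2 * y1) + b2 * (x2' * y1'))
      ≤ b2 * (A + B) + (b1 - b2) * (A - (A - B) * (u2 * w1)) := by
    have h5 : b2 * ((x1 * y2 + x1' * y2') + (x2 * y1 + x2' * y1')) ≤ b2 * (A + B) :=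
      mul_le_mul_of_nonneg_left (add_le_add cs1 cs2) h2
    have h6 : (b1 - b2) * (x1 * y2 + x2 * y1) ≤ (b1 - b2) * (A - (A - B) * (u2 * w1)) := by
      rw [hs]
      exact mul_le_mul_of_nonneg_left hs2 (by linarith)
    nlinarith
  have hS2 : Real.sqrt (A ^ 2 + A * B + B ^ 2) ^ 2 = A ^ 2 + A * B + B ^ 2 :=
    Real.sq_sqrt (by positivity)
  set S := Real.sqrt (A ^ 2 + A * B + B ^ 2) with hS
  have hS0 : 0 ≤ S := Real.sqrt_nonneg _
  -- `b2 < b1`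
  have hb : b2 < b1 := by
    by_contra hc
    push Not at hc
    have hbe : b1 = b2 := le_antisymm hc h12
    have h5 : S ≤ b2 * (A + B) := by
      have := heq.trans hup
      rw [hbe, sub_self, zero_mul, add_zero] at this
      exact this
    have h6 : S ^ 2 ≤ (b2 * (A + B)) ^ 2 := pow_le_pow_left₀ hS0 h5 2
    rw [hS2, mul_pow] at h6
    have h7 : b2 ^ 2 ≤ 3 / 4 := by
      rw [hbe] at h3
      nlinarith
    have h8 : b2 ^ 2 * (A + B) ^ 2 ≤ 3 / 4 * (A + B) ^ 2 :=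
      mul_le_mul_of_nonneg_right h7 (by positivity)
    nlinarith [mul_pos (sub_pos.2 hlt) (sub_pos.2 hlt)]
  have h5 : (b1 - b2) * ((A - B) * (u2 * w1)) ≤ 0 := by
    have := heq.trans hup
    nlinarith
  have h6 : u2 * w1 = 0 := by
    by_contra hc
    have h7 : 0 < u2 * w1 := lt_of_le_of_ne huw (Ne.symm hc)
    have := mul_pos (sub_pos.2 hb) (mul_pos (sub_pos.2 hlt) h7)
    linarith
  -- `u1 w2 = 1`
  have h7 : 1 ≤ u1 * w2 := by
    by_contra hc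
    push Not at hc
    have h8 : (b1 * (x1 * y2) + b2 * (x1' * y2')) + (b1 * (x2 * y1) + b2 * (x2' * y1'))
        ≤ b2 * (A + B) + (b1 - b2) * (A * (u1 * w2)) := by
      have h5 : b2 * ((x1 * y2 + x1' * y2') + (x2 * y1 + x2' * y1')) ≤ b2 * (A + B) :=
        mul_le_mul_of_nonneg_left (add_le_add cs1 cs2) h2
      have h6' : (b1 - b2) * (x1 * y2 + x2 * y1) = (b1 - b2) * (A * (u1 * w2)) := by
        rw [hs, h6, mul_zero, add_zero]
      nlinarith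
    have h9 : (b1 - b2) * (A * (u1 * w2)) < (b1 - b2) * A := by
      apply mul_lt_mul_of_pos_left _ (sub_pos.2 hb)
      nlinarith
    have := heq.trans h8
    nlinarith
  have hu1' : u1 ≤ 1 := by nlinarith [sq_nonneg w1, sq_nonneg (u1 - 1)]
  have hw2' : w2 ≤ 1 := by nlinarith [sq_nonneg u2, sq_nonneg (w2 - 1)]
  have hu1e : u1 = 1 := by
    apply le_antisymm hu1'
    nlinarith
  have hw2e : w2 = 1 := by
    apply le_antisymm hw2'
    nlinarith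
  have hw1e : w1 = 0 := by
    have : w1 ^ 2 ≤ 0 := by rw [hu1e] at q1; linarith
    exact pow_eq_zero_iff two_ne_zero |>.1 (le_antisymm this (sq_nonneg _))
  have hu2e : u2 = 0 := by
    have : u2 ^ 2 ≤ 0 := by rw [hw2e] at q2; linarith
    exact pow_eq_zero_iff two_ne_zero |>.1 (le_antisymm this (sq_nonneg _))
  refine ⟨?_, ?_, ?_, ?_⟩
  · rw [f1, hu1e, mul_one] at e1
    exact pow_eq_zero_iff two_ne_zero |>.1 (by linarith)
  · rw [f4, hw2e, mul_one] at e4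
    exact pow_eq_zero_iff two_ne_zero |>.1 (by linarith)
  · rw [f2, hu2e, mul_zero]
  · rw [f3, hw1e, mul_zero]

/-- equality in (P) with different products -/
theorem pair_eq [FiniteDimensional ℂ V] (h : IsCub Φ) {z x1 y1 x2 y2 : V} (hz : z ≠ 0)
    (h1 : inner ℂ x1 y1 = 0) (h2 : inner ℂ x2 y2 = 0) (hx1 : x1 ≠ 0) (hx2 : x2 ≠ 0)
    (hy1 : y1 ≠ 0) (hy2 : y2 ≠ 0) (hlt : ‖x2‖ * ‖y1‖ < ‖x1‖ * ‖y2‖)
    (heq : ‖z‖ * Real.sqrt ((‖x1‖ * ‖y2‖) ^ 2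
      + (‖x1‖ * ‖y2‖) * (‖x2‖ * ‖y1‖) + (‖x2‖ * ‖y1‖) ^ 2) ≤ ‖Φ z x1 y2‖ + ‖Φ z x2 y1‖) :
    ∃ c : ℂ, y2 = c • x1 ∧ inner ℂ x1 x2 = 0 := by
  have hz0 : ‖z‖ ≠ 0 := norm_ne_zero_iff.2 hz
  have hzp : 0 < ‖z‖ := norm_pos_iff.2 hz
  obtain ⟨e, b1, b2, he, hb2, h12, hbd, hf⟩ := tak h (z := ((‖z‖⁻¹ : ℝ) : ℂ) • z)
    (by simp [norm_smul, hz0])
  have hb1 := hbd x1 y2
  have hb3 := hbd x2 y1
  simp only [map_smul, LinearMap.smul_apply, smul_eq_mul, norm_mul,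
        Complex.norm_real, norm_inv, norm_norm] at hb1 hb3
  have heq' : Real.sqrt ((‖x1‖ * ‖y2‖) ^ 2
      + (‖x1‖ * ‖y2‖) * (‖x2‖ * ‖y1‖) + (‖x2‖ * ‖y1‖) ^ 2)
      ≤ ‖z‖⁻¹ * ‖Φ z x1 y2‖ + ‖z‖⁻¹ * ‖Φ z x2 y1‖ := by
    rw [← mul_add, ← div_eq_inv_mul, le_div_iff₀ hzp]
    linarith
  obtain ⟨r1, r2, r3, r4⟩ := pair_real_eq (norm_nonneg (inner ℂ e x1))
    (norm_nonneg (x1 - inner ℂ e x1 • e))
    (norm_nonneg (inner ℂ e x2)) (norm_nonneg (x2 - inner ℂ e x2 • e))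
    (norm_nonneg (inner ℂ e y1)) (norm_nonneg (y1 - inner ℂ e y1 • e))
    (norm_nonneg (inner ℂ e y2)) (norm_nonneg (y2 - inner ℂ e y2 • e))
    (norm_pos_iff.2 hx1) (norm_pos_iff.2 hx2) (norm_pos_iff.2 hy1) (norm_pos_iff.2 hy2)
    (norm_decomp he x1) (norm_decomp he x2) (norm_decomp he y1) (norm_decomp he y2)
    (orth_decomp he h1) (orth_decomp he h2) hb2 h12 hlt hf
    (heq'.trans (add_le_add hb1 hb3))
  rw [norm_eq_zero, sub_eq_zero] at r1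
  rw [norm_eq_zero, sub_eq_zero] at r2
  rw [norm_eq_zero] at r3
  have h9 : inner ℂ e x1 ≠ 0 := by
    intro h0
    rw [h0, zero_smul] at r1
    exact hx1 r1
  refine ⟨inner ℂ e y2 / inner ℂ e x1, ?_, ?_⟩
  · calc y2 = inner ℂ e y2 • e := r2
      _ = (inner ℂ e y2 / inner ℂ e x1) • (inner ℂ e x1 • e) := by
          rw [smul_smul, div_mul_cancel₀ _ h9]
      _ = (inner ℂ e y2 / inner ℂ e x1) • x1 := by rw [← r1]
  · rw [r1, inner_smul_left, r3, mul_zero]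

end Pool.Agent.Helper53.T5
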