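import Pool.Agent.Helper53.T5.EqA

/-!
# Maximal triples of the determinant form with a zero diagonal
-/

set_option autoImplicit false

open scoped ComplexConjugate

namespace Pool.Agent.Helper53.T5

open Pool.Agent.Helper76.T5

variable {V : Type*} [NormedAddCommGroup V] [InnerProductSpace ℂ V]
variable {Φ : V →ₗ[ℂ] V →ₗ[ℂ] V →ₗ[ℂ] ℂ}

/-- maximal triples -/
def Mx (Φ : V →ₗ[ℂ] V →ₗ[ℂ] V →ₗ[ℂ] ℂ) (x y z : Fin 3 → V) : Prop :=
  nm x = 1 ∧ nm y = 1 ∧ nm z = 1 ∧ ‖dtf Φ x y z‖ = 1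

/-- cyclic rotation of the indices -/
def rot (x : Fin 3 → V) : Fin 3 → V := fun i => x (i + 1)

theorem rot0 (x : Fin 3 → V) : rot x 0 = x 1 := rfl
theorem rot1 (x : Fin 3 → V) : rot x 1 = x 2 := rfl
theorem rot2 (x : Fin 3 → V) : rot x 2 = x 0 := rfl

theorem nm_rot (x : Fin 3 → V) : nm (rot x) = nm x := by
  unfold nm
  rw [rot0, rot1, rot2]
  congr 1
  ring

theorem dtf_rot (Φ : V →ₗ[ℂ] V →ₗ[ℂ] V →ₗ[ℂ] ℂ) (x y z : Fin 3 → V) :
    dtf Φ (rot x) (rot y) (rot z) = dtf Φ x y z := by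
  unfold dtf
  simp only [rot0, rot1, rot2]
  ring

theorem Mx.rot {x y z : Fin 3 → V} (h : Mx Φ x y z) :
    Mx Φ (Pool.Agent.Helper53.T5.rot x) (Pool.Agent.Helper53.T5.rot y)
      (Pool.Agent.Helper53.T5.rot z) := by
  obtain ⟨h1, h2, h3, h4⟩ := h
  exact ⟨by rw [nm_rot, h1], by rw [nm_rot, h2], by rw [nm_rot, h3], by rw [dtf_rot, h4]⟩

theorem dtf_swap12 (h : IsCub Φ) (x y z : Fin 3 → V) : dtf Φ y x z = - dtf Φ x y z := by
  unfold dtf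
  rw [h.s12 (y 0) (x 1), h.s12 (y 0) (x 2), h.s12 (y 1) (x 0), h.s12 (y 1) (x 2),
    h.s12 (y 2) (x 0), h.s12 (y 2) (x 1)]
  ring

theorem dtf_swap23 (h : IsCub Φ) (x y z : Fin 3 → V) : dtf Φ x z y = - dtf Φ x y z := by
  unfold dtf
  rw [h.s23 (x 0) (z 1) (y 2), h.s23 (x 0) (z 2) (y 1), h.s23 (x 1) (z 0) (y 2),
    h.s23 (x 1) (z 2) (y 0), h.s23 (x 2) (z 0) (y 1), h.s23 (x 2) (z 1) (y 0)]
  ring

theorem Mx.swap12 (h : IsCub Φ) {x y z : Fin 3 → V} (hM : Mx Φ x y z) : Mx Φ y x z := by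
  obtain ⟨h1, h2, h3, h4⟩ := hM
  exact ⟨h2, h1, h3, by rw [dtf_swap12 h x y z, norm_neg, h4]⟩

theorem Mx.swap23 (h : IsCub Φ) {x y z : Fin 3 → V} (hM : Mx Φ x y z) : Mx Φ x z y := by
  obtain ⟨h1, h2, h3, h4⟩ := hM
  exact ⟨h1, h3, h2, by rw [dtf_swap23 h x y z, norm_neg, h4]⟩

theorem Mx.mact {U : Matrix (Fin 3) (Fin 3) ℂ} (hU : U.conjTranspose * U = 1)
    {x y z : Fin 3 → V} (hM : Mx Φ x y z) :
    Mx Φ (mact U x) (Pool.Agent.Helper76.T5.mact U y) (Pool.Agent.Helper76.T5.mact U z) := by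
  obtain ⟨h1, h2, h3, h4⟩ := hM
  exact ⟨by rw [nm_mact hU, h1], by rw [nm_mact hU, h2], by rw [nm_mact hU, h3],
    by rw [dtf_mact, norm_mul, norm_det_of hU, h4, one_mul]⟩

/-- rows of a maximal triple are orthogonal -/
theorem Mx.orth [FiniteDimensional ℂ V] (h : IsCub Φ) {x y z : Fin 3 → V} (hM : Mx Φ x y z) :
    ∑ i, inner ℂ (x i) (y i) = 0 := by
  obtain ⟨hx, hy, hz, hd⟩ := hM
  set T : ℂ := ∑ i, inner ℂ (x i) (y i) with hT
  set y' : Fin 3 → V := fun i => y i - T • x i with hy'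
  have hTc : ∑ i, inner ℂ (y i) (x i) = conj T := by
    rw [hT, map_sum]
    exact Finset.sum_congr rfl fun i _ => (inner_conj_symm _ _).symm
  have hn : ((nm y' ^ 2 : ℝ) : ℂ) = ((1 - ‖T‖ ^ 2 : ℝ) : ℂ) := by
    have e1 : ∀ i, inner ℂ (y' i) (y' i) = inner ℂ (y i) (y i) - T * inner ℂ (y i) (x i)
        - conj T * inner ℂ (x i) (y i) + conj T * T * inner ℂ (x i) (x i) := by
      intro i
      rw [hy', inner_sub_left, inner_sub_right, inner_sub_right, inner_smul_left,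
        inner_smul_left, inner_smul_right, inner_smul_right]
      ring
    rw [nm_sq', Finset.sum_congr rfl fun i _ => e1 i]
    simp only [Finset.sum_add_distrib, Finset.sum_sub_distrib, ← Finset.mul_sum]
    rw [hTc, ← hT, ← nm_sq', ← nm_sq', hx, hy]
    have h5 : conj T * T = ((‖T‖ ^ 2 : ℝ) : ℂ) := by
      rw [mul_comm, Complex.mul_conj, Complex.normSq_eq_norm_sq]
    have h6 : T * conj T = ((‖T‖ ^ 2 : ℝ) : ℂ) := by rw [mul_comm, h5]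
    rw [h6, h5]
    push_cast
    ring
  have hn' : nm y' ^ 2 = 1 - ‖T‖ ^ 2 := by exact_mod_cast hn
  have h6 := h.thmA x y' z
  rw [hy', dtf_sub_smul, h.dtf_self, mul_zero, sub_zero, hd, hx, hz, one_mul, mul_one,
    ← hy'] at h6
  have h7 : 1 ≤ nm y' ^ 2 := one_le_pow₀ h6
  have h8 : ‖T‖ ^ 2 ≤ 0 := by linarith
  have h9 : ‖T‖ = 0 := pow_eq_zero_iff two_ne_zero |>.1 (le_antisymm h8 (sq_nonneg _))
  exact norm_eq_zero.1 h9

/-- the real equality case -/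
theorem real1 {c0 c1 c2 q0 q1 q2 p0 p1 p2 a0 a1 a2 b0 b1 b2 : ℝ}
    (hc : c0 ^ 2 + c1 ^ 2 + c2 ^ 2 = 1) (ha : a0 ^ 2 + a1 ^ 2 + a2 ^ 2 = 1)
    (hb : b0 ^ 2 + b1 ^ 2 + b2 ^ 2 = 1)
    (hq0 : q0 ^ 2 = (a1 * b2) ^ 2 + (a1 * b2) * (a2 * b1) + (a2 * b1) ^ 2)
    (hq1 : q1 ^ 2 = (a0 * b2) ^ 2 + (a0 * b2) * (a2 * b0) + (a2 * b0) ^ 2)
    (hq2 : q2 ^ 2 = (a0 * b1) ^ 2 + (a0 * b1) * (a1 * b0) + (a1 * b0) ^ 2)
    (hp0 : p0 ≤ c0 * q0) (hp1 : p1 ≤ c1 * q1) (hp2 : p2 ≤ c2 * q2) (hs : 1 ≤ p0 + p1 + p2) :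
    p0 = c0 * q0 ∧ c0 = q0 ∧ a0 * b0 = a1 * b1 ∧ a1 * b1 = a2 * b2 := by
  have hQ : q0 ^ 2 + q1 ^ 2 + q2 ^ 2
      + ((a0 * b0 - a1 * b1) ^ 2 + (a1 * b1 - a2 * b2) ^ 2 + (a2 * b2 - a0 * b0) ^ 2) / 2 = 1 := by
    have e : (a0 ^ 2 + a1 ^ 2 + a2 ^ 2) * (b0 ^ 2 + b1 ^ 2 + b2 ^ 2) = 1 := by rw [ha, hb, one_mul]
    rw [hq0, hq1, hq2]
    linarith
  have h1 : (c0 - q0) ^ 2 + (c1 - q1) ^ 2 + (c2 - q2) ^ 2
      + ((a0 * b0 - a1 * b1) ^ 2 + (a1 * b1 - a2 * b2) ^ 2 + (a2 * b2 - a0 * b0) ^ 2) / 2 ≤ 0 := by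
    have : (c0 - q0) ^ 2 + (c1 - q1) ^ 2 + (c2 - q2) ^ 2
        = (c0 ^ 2 + c1 ^ 2 + c2 ^ 2) + (q0 ^ 2 + q1 ^ 2 + q2 ^ 2)
          - 2 * (c0 * q0 + c1 * q1 + c2 * q2) := by ring
    rw [this, hc]
    linarith
  have s0 := sq_nonneg (c0 - q0)
  have s1 := sq_nonneg (c1 - q1)
  have s2 := sq_nonneg (c2 - q2)
  have t0 := sq_nonneg (a0 * b0 - a1 * b1)
  have t1 := sq_nonneg (a1 * b1 - a2 * b2)
  have t2 := sq_nonneg (a2 * b2 - a0 * b0)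
  have r0 : c0 - q0 = 0 := pow_eq_zero_iff two_ne_zero |>.1 (by linarith : (c0 - q0) ^ 2 = 0)
  have r1 : c1 - q1 = 0 := pow_eq_zero_iff two_ne_zero |>.1 (by linarith : (c1 - q1) ^ 2 = 0)
  have r2 : c2 - q2 = 0 := pow_eq_zero_iff two_ne_zero |>.1 (by linarith : (c2 - q2) ^ 2 = 0)
  have r3 : a0 * b0 - a1 * b1 = 0 :=
    pow_eq_zero_iff two_ne_zero |>.1 (by linarith : (a0 * b0 - a1 * b1) ^ 2 = 0)
  have r4 : a1 * b1 - a2 * b2 = 0 :=
    pow_eq_zero_iff two_ne_zero |>.1 (by linarith : (a1 * b1 - a2 * b2) ^ 2 = 0)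
  have g0 : q0 = c0 := by linarith
  have g1 : q1 = c1 := by linarith
  have g2 : q2 = c2 := by linarith
  refine ⟨?_, g0.symm, by linarith, by linarith⟩
  rw [g1] at hp1
  rw [g2] at hp2
  rw [g0] at hp0 ⊢
  nlinarith

/-- the square root in (P) -/
noncomputable def Q (x y : Fin 3 → V) (i j : Fin 3) : ℝ :=
  Real.sqrt ((‖x i‖ * ‖y j‖) ^ 2 + (‖x i‖ * ‖y j‖) * (‖x j‖ * ‖y i‖) + (‖x j‖ * ‖y i‖) ^ 2)

theorem Q_symm (x y : Fin 3 → V) (i j : Fin 3) : Q x y i j = Q x y j i := by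
  unfold Q
  congr 1
  ring

theorem zd0 [FiniteDimensional ℂ V] (h : IsCub Φ) {x y z : Fin 3 → V} (hM : Mx Φ x y z)
    (hd : ∀ i, inner ℂ (x i) (y i) = 0) :
    (‖Φ (z 0) (x 1) (y 2)‖ + ‖Φ (z 0) (x 2) (y 1)‖ = ‖z 0‖ * Q x y 1 2) ∧ ‖z 0‖ = Q x y 1 2 ∧
      ‖x 0‖ * ‖y 0‖ = ‖x 1‖ * ‖y 1‖ ∧ ‖x 1‖ * ‖y 1‖ = ‖x 2‖ * ‖y 2‖ := by
  obtain ⟨hx, hy, hz, hdt⟩ := hM
  have e0 : dtf Φ x y z = (Φ (z 2) (x 0) (y 1) - Φ (z 2) (x 1) (y 0))
      - (Φ (z 1) (x 0) (y 2) - Φ (z 1) (x 2) (y 0))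
      + (Φ (z 0) (x 1) (y 2) - Φ (z 0) (x 2) (y 1)) := by
    have c : ∀ a b d : V, Φ a b d = Φ d a b := fun a b d => by rw [h.s23, h.s12]
    unfold dtf
    rw [c (x 0) (y 1) (z 2), c (x 0) (y 2) (z 1), c (x 1) (y 0) (z 2), c (x 1) (y 2) (z 0),
      c (x 2) (y 0) (z 1), c (x 2) (y 1) (z 0)]
    ring
  have hle : 1 ≤ (‖Φ (z 0) (x 1) (y 2)‖ + ‖Φ (z 0) (x 2) (y 1)‖)
      + (‖Φ (z 1) (x 0) (y 2)‖ + ‖Φ (z 1) (x 2) (y 0)‖)
      + (‖Φ (z 2) (x 0) (y 1)‖ + ‖Φ (z 2) (x 1) (y 0)‖) := by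
    rw [← hdt, e0]
    have n1 := norm_add_le ((Φ (z 2) (x 0) (y 1) - Φ (z 2) (x 1) (y 0))
      - (Φ (z 1) (x 0) (y 2) - Φ (z 1) (x 2) (y 0))) (Φ (z 0) (x 1) (y 2) - Φ (z 0) (x 2) (y 1))
    have n2 := norm_sub_le (Φ (z 2) (x 0) (y 1) - Φ (z 2) (x 1) (y 0))
      (Φ (z 1) (x 0) (y 2) - Φ (z 1) (x 2) (y 0))
    have n3 := norm_sub_le (Φ (z 2) (x 0) (y 1)) (Φ (z 2) (x 1) (y 0))
    have n4 := norm_sub_le (Φ (z 1) (x 0) (y 2)) (Φ (z 1) (x 2) (y 0))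
    have n5 := norm_sub_le (Φ (z 0) (x 1) (y 2)) (Φ (z 0) (x 2) (y 1))
    linarith
  have hx2 : ‖x 0‖ ^ 2 + ‖x 1‖ ^ 2 + ‖x 2‖ ^ 2 = 1 := by rw [← nm_sq, hx, one_pow]
  have hy2 : ‖y 0‖ ^ 2 + ‖y 1‖ ^ 2 + ‖y 2‖ ^ 2 = 1 := by rw [← nm_sq, hy, one_pow]
  have hz2 : ‖z 0‖ ^ 2 + ‖z 1‖ ^ 2 + ‖z 2‖ ^ 2 = 1 := by rw [← nm_sq, hz, one_pow]
  exact real1 (q1 := Q x y 0 2) (q2 := Q x y 0 1) hz2 hx2 hy2
    (Real.sq_sqrt (by positivity)) (Real.sq_sqrt (by positivity)) (Real.sq_sqrt (by positivity))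
    (h.pair' (z 0) (hd 1) (hd 2)) (h.pair' (z 1) (hd 0) (hd 2)) (h.pair' (z 2) (hd 0) (hd 1)) hle

theorem fin3_cases (i j k : Fin 3) (h1 : i ≠ j) (h2 : j ≠ k) (h3 : i ≠ k) :
    (i = 0 ∧ j = 1 ∧ k = 2) ∨ (i = 0 ∧ j = 2 ∧ k = 1) ∨ (i = 1 ∧ j = 0 ∧ k = 2) ∨
      (i = 1 ∧ j = 2 ∧ k = 0) ∨ (i = 2 ∧ j = 0 ∧ k = 1) ∨ (i = 2 ∧ j = 1 ∧ k = 0) := by
  revert i j k
  decide

theorem fin3_third (i j : Fin 3) (h : i ≠ j) : ∃ k, j ≠ k ∧ i ≠ k := by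
  revert i j
  decide

theorem fin3_two (m : Fin 3) : ∃ i j : Fin 3, i ≠ j ∧ j ≠ m ∧ i ≠ m := by
  revert m
  decide

theorem zdk [FiniteDimensional ℂ V] (h : IsCub Φ) {x y z : Fin 3 → V} (hM : Mx Φ x y z)
    (hd : ∀ i, inner ℂ (x i) (y i) = 0) (i j k : Fin 3) (h1 : i ≠ j) (h2 : j ≠ k) (h3 : i ≠ k) :
    (‖Φ (z k) (x i) (y j)‖ + ‖Φ (z k) (x j) (y i)‖ = ‖z k‖ * Q x y i j) ∧
      ‖z k‖ = Q x y i j := by
  obtain ⟨A0, B0, -, -⟩ := zd0 h hM hd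
  obtain ⟨A1, B1, -, -⟩ := zd0 h hM.rot (fun i => hd (i + 1))
  obtain ⟨A2, B2, -, -⟩ := zd0 h hM.rot.rot (fun i => hd (i + 1 + 1))
  have e1 : Q (rot x) (rot y) 1 2 = Q x y 2 0 := rfl
  have e2 : Q (rot (rot x)) (rot (rot y)) 1 2 = Q x y 0 1 := rfl
  rw [e1] at A1 B1
  rw [e2] at A2 B2
  simp only [rot0, rot1, rot2] at A1 B1 A2 B2
  rcases fin3_cases i j k h1 h2 h3 with ⟨rfl, rfl, rfl⟩ | ⟨rfl, rfl, rfl⟩ | ⟨rfl, rfl, rfl⟩ |
    ⟨rfl, rfl, rfl⟩ | ⟨rfl, rfl, rfl⟩ | ⟨rfl, rfl, rfl⟩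
  · exact ⟨A2, B2⟩
  · rw [Q_symm, add_comm]; exact ⟨A1, B1⟩
  · rw [Q_symm, add_comm]; exact ⟨A2, B2⟩
  · exact ⟨A0, B0⟩
  · exact ⟨A1, B1⟩
  · rw [Q_symm, add_comm]; exact ⟨A0, B0⟩

/-- the first case -/
def One (Φ : V →ₗ[ℂ] V →ₗ[ℂ] V →ₗ[ℂ] ℂ) (x y z : Fin 3 → V) : Prop :=
  ∃ (U : Matrix (Fin 3) (Fin 3) ℂ) (e : V), U.conjTranspose * U = 1 ∧ ‖e‖ = 1 ∧
    ‖Φ e e e‖ = 1 ∧ (∀ j, x j = U 0 j • e) ∧ (∀ j, y j = U 1 j • e) ∧ (∀ j, z j = U 2 j • e)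

theorem One.of_mact {W : Matrix (Fin 3) (Fin 3) ℂ} (hW : W.conjTranspose * W = 1)
    {x y z : Fin 3 → V} (h : One Φ (mact W x) (mact W y) (mact W z)) : One Φ x y z := by
  obtain ⟨U, e, hU, he, hP, hx, hy, hz⟩ := h
  have key : ∀ (v : Fin 3 → V) (i : Fin 3), (∀ j, mact W v j = U i j • e) →
      ∀ j, v j = (U * W.conjTranspose.transpose) i j • e := by
    intro v i hv j
    have h1 : v = mact W.conjTranspose (mact W v) := by rw [mact_mul, hW, mact_one]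
    rw [h1]
    unfold mact
    rw [Matrix.mul_apply, Finset.sum_smul]
    refine Finset.sum_congr rfl fun k _ => ?_
    have := hv k
    unfold mact at this
    rw [this, smul_smul, Matrix.transpose_apply, mul_comm]
  refine ⟨U * W.conjTranspose.transpose, e, ?_, he, hP, key x 0 hx, key y 1 hy, key z 2 hz⟩
  have h2 : W.conjTranspose.transpose.conjTranspose = W.transpose := by
    ext i j
    simp [Matrix.conjTranspose_apply]
  rw [Matrix.conjTranspose_mul, Matrix.mul_assoc, ← Matrix.mul_assoc _ U, hU, Matrix.one_mul, h2,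
    ← Matrix.transpose_mul, hW, Matrix.transpose_one]

theorem one_of [FiniteDimensional ℂ V] (h : IsCub Φ) {x y z : Fin 3 → V} (hM : Mx Φ x y z)
    {e : V} (he : ‖e‖ = 1) (hx : ∀ j, ∃ c : ℂ, x j = c • e) (hy : ∀ j, ∃ c : ℂ, y j = c • e)
    (hz : ∀ j, ∃ c : ℂ, z j = c • e) : One Φ x y z := by
  choose a ha using hx
  choose b hb using hy
  choose c hc using hz
  have o1 := hM.orth h
  have o2 := (hM.swap23 h).orth h
  have o3 := ((hM.swap12 h).swap23 h).orth h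
  have hM' := hM
  obtain ⟨nx, ny, nz, hd⟩ := hM
  have ie : inner ℂ e e = (1 : ℂ) := by
    rw [inner_self_eq_norm_sq_to_K, he]; simp
  have isc : ∀ s t : ℂ, inner ℂ (s • e) (t • e) = conj s * t := by
    intro s t
    rw [inner_smul_left, inner_smul_right, ie, mul_one]
  have n1 : ∑ i, conj (a i) * a i = 1 := by
    have := nm_sq' x
    rw [nx] at this
    simp only [ha, isc] at this
    rw [← this]; norm_num
  have n2 : ∑ i, conj (b i) * b i = 1 := by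
    have := nm_sq' y
    rw [ny] at this
    simp only [hb, isc] at this
    rw [← this]; norm_num
  have n3 : ∑ i, conj (c i) * c i = 1 := by
    have := nm_sq' z
    rw [nz] at this
    simp only [hc, isc] at this
    rw [← this]; norm_num
  simp only [ha, hb, hc, isc] at o1 o2 o3
  rw [Fin.sum_univ_three] at n1 n2 n3 o1 o2 o3
  set U : Matrix (Fin 3) (Fin 3) ℂ := Matrix.of ![a, b, c] with hU
  have u0 : ∀ j, U 0 j = a j := fun j => rfl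
  have u1 : ∀ j, U 1 j = b j := fun j => rfl
  have u2 : ∀ j, U 2 j = c j := fun j => rfl
  have o1' := congrArg conj o1
  have o2' := congrArg conj o2
  have o3' := congrArg conj o3
  simp only [map_add, map_mul, Complex.conj_conj, map_zero] at o1' o2' o3'
  have hUU : U * U.conjTranspose = 1 := by
    have E : ∀ i j, (U * U.conjTranspose) i j
        = U i 0 * conj (U j 0) + U i 1 * conj (U j 1) + U i 2 * conj (U j 2) := by
      intro i j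
      rw [Matrix.mul_apply, Fin.sum_univ_three]
      rfl
    ext i j
    rw [E]
    fin_cases i <;> fin_cases j
    · show a 0 * conj (a 0) + a 1 * conj (a 1) + a 2 * conj (a 2) = 1
      linear_combination n1
    · show a 0 * conj (b 0) + a 1 * conj (b 1) + a 2 * conj (b 2) = 0
      linear_combination o1'
    · show a 0 * conj (c 0) + a 1 * conj (c 1) + a 2 * conj (c 2) = 0
      linear_combination o2'
    · show b 0 * conj (a 0) + b 1 * conj (a 1) + b 2 * conj (a 2) = 0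
      linear_combination o1
    · show b 0 * conj (b 0) + b 1 * conj (b 1) + b 2 * conj (b 2) = 1
      linear_combination n2
    · show b 0 * conj (c 0) + b 1 * conj (c 1) + b 2 * conj (c 2) = 0
      linear_combination o3'
    · show c 0 * conj (a 0) + c 1 * conj (a 1) + c 2 * conj (a 2) = 0
      linear_combination o2
    · show c 0 * conj (b 0) + c 1 * conj (b 1) + c 2 * conj (b 2) = 0
      linear_combination o3
    · show c 0 * conj (c 0) + c 1 * conj (c 1) + c 2 * conj (c 2) = 1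
      linear_combination n3
  have hUU' : U.conjTranspose * U = 1 := mul_eq_one_comm.1 hUU
  have hdt : dtf Φ x y z = U.det * Φ e e e := by
    unfold dtf
    rw [Matrix.det_fin_three]
    simp only [ha, hb, hc, u0, u1, u2, map_smul, LinearMap.smul_apply, smul_eq_mul]
    ring
  refine ⟨U, e, hUU', he, ?_, ha, hb, hc⟩
  rw [hdt, norm_mul, norm_det_of hUU', one_mul] at hd
  exact hd

/-- zero diagonal and `t = 0` -/
theorem case0 [FiniteDimensional ℂ V] (h : IsCub Φ) {x y z : Fin 3 → V} (hM : Mx Φ x y z)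
    (hd : ∀ i, inner ℂ (x i) (y i) = 0) (h0 : ∀ i, x i = 0 ∨ y i = 0) : One Φ x y z := by
  have PL : ∀ i j k : Fin 3, i ≠ j → j ≠ k → i ≠ k → x i ≠ 0 → y j ≠ 0 →
      (∃ c : ℂ, y j = c • x i) ∧ (∃ c : ℂ, z k = c • x i) := by
    intro i j k h1 h2 h3 hxi hyj
    have hyi : y i = 0 := (h0 i).resolve_left hxi
    have hxj : x j = 0 := (h0 j).resolve_right hyj
    obtain ⟨A, B⟩ := zdk h hM hd i j k h1 h2 h3
    have hQ : Q x y i j = ‖x i‖ * ‖y j‖ := by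
      unfold Q
      rw [hyi, hxj, norm_zero, zero_mul, mul_zero, add_zero]
      simp only [ne_eq, OfNat.ofNat_ne_zero, not_false_eq_true, zero_pow, add_zero]
      exact Real.sqrt_sq (by positivity)
    have hpos : 0 < ‖x i‖ * ‖y j‖ := mul_pos (norm_pos_iff.2 hxi) (norm_pos_iff.2 hyj)
    rw [hQ] at A B
    have hzk : z k ≠ 0 := by
      intro hz
      rw [hz, norm_zero] at B
      linarith
    have hA : ‖Φ (z k) (x j) (y i)‖ = 0 := by rw [hxj]; simp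
    rw [hA, add_zero] at A
    exact par3 h hzk hxi hyj A.ge
  obtain ⟨nx, ny, nz, hdt⟩ := id hM
  obtain ⟨i0, hi0⟩ : ∃ i, x i ≠ 0 := by
    by_contra hc
    push Not at hc
    have : nm x ^ 2 = 0 := by rw [nm_sq, hc 0, hc 1, hc 2]; simp
    rw [nx] at this
    norm_num at this
  obtain ⟨j0, hj0⟩ : ∃ i, y i ≠ 0 := by
    by_contra hc
    push Not at hc
    have : nm y ^ 2 = 0 := by rw [nm_sq, hc 0, hc 1, hc 2]; simp
    rw [ny] at this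
    norm_num at this
  have hxy : ∀ i j, x i ≠ 0 → y j ≠ 0 → i ≠ j := by
    intro i j hi hj hij
    subst hij
    rcases h0 i with h | h
    · exact hi h
    · exact hj h
  obtain ⟨k0, hk1, hk2⟩ := fin3_third i0 j0 (hxy _ _ hi0 hj0)
  obtain ⟨c0, hc0⟩ := (PL i0 j0 k0 (hxy _ _ hi0 hj0) hk1 hk2 hi0 hj0).1
  have hx : ∀ m, ∃ c : ℂ, x m = c • x i0 := by
    intro m
    by_cases hm : x m = 0
    · exact ⟨0, by rw [hm, zero_smul]⟩
    · obtain ⟨k, hk1, hk2⟩ := fin3_third m j0 (hxy _ _ hm hj0)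
      obtain ⟨c, hc⟩ := (PL m j0 k (hxy _ _ hm hj0) hk1 hk2 hm hj0).1
      have hcn : c ≠ 0 := by
        intro h1
        rw [h1, zero_smul] at hc
        exact hj0 hc
      refine ⟨c⁻¹ * c0, ?_⟩
      rw [← smul_smul, ← hc0, hc, smul_smul, inv_mul_cancel₀ hcn, one_smul]
  have hy : ∀ m, ∃ c : ℂ, y m = c • x i0 := by
    intro m
    by_cases hm : y m = 0
    · exact ⟨0, by rw [hm, zero_smul]⟩
    · obtain ⟨k, hk1, hk2⟩ := fin3_third i0 m (hxy _ _ hi0 hm)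
      exact (PL i0 m k (hxy _ _ hi0 hm) hk1 hk2 hi0 hm).1
  have hz : ∀ m, ∃ c : ℂ, z m = c • x i0 := by
    intro m
    by_cases hm : z m = 0
    · exact ⟨0, by rw [hm, zero_smul]⟩
    · obtain ⟨i, j, h1, h2, h3⟩ := fin3_two m
      have B := (zdk h hM hd i j m h1 h2 h3).2
      by_cases hc1 : x i ≠ 0 ∧ y j ≠ 0
      · obtain ⟨c, hc⟩ := (PL i j m h1 h2 h3 hc1.1 hc1.2).2
        obtain ⟨c', hc'⟩ := hx i
        exact ⟨c * c', by rw [hc, hc', smul_smul]⟩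
      by_cases hc2 : x j ≠ 0 ∧ y i ≠ 0
      · obtain ⟨c, hc⟩ := (PL j i m h1.symm h3 h2 hc2.1 hc2.2).2
        obtain ⟨c', hc'⟩ := hx j
        exact ⟨c * c', by rw [hc, hc', smul_smul]⟩
      exfalso
      have e1 : ‖x i‖ * ‖y j‖ = 0 := by
        by_contra h5
        apply hc1
        constructor
        · intro h6; apply h5; rw [h6, norm_zero, zero_mul]
        · intro h6; apply h5; rw [h6, norm_zero, mul_zero]
      have e2 : ‖x j‖ * ‖y i‖ = 0 := by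
        by_contra h5
        apply hc2
        constructor
        · intro h6; apply h5; rw [h6, norm_zero, zero_mul]
        · intro h6; apply h5; rw [h6, norm_zero, mul_zero]
      have : Q x y i j = 0 := by
        unfold Q
        rw [e1, e2]
        simp
      rw [this, norm_eq_zero] at B
      exact hm B
  have hn0 : ((‖x i0‖ : ℝ) : ℂ) ≠ 0 := by
    exact_mod_cast norm_ne_zero_iff.2 hi0
  have hback : ∀ v : V, (∃ c : ℂ, v = c • x i0) → ∃ c : ℂ, v = c • (((‖x i0‖⁻¹ : ℝ) : ℂ) • x i0) := by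
    rintro v ⟨c, hc⟩
    refine ⟨c * ((‖x i0‖ : ℝ) : ℂ), ?_⟩
    rw [hc, smul_smul, Complex.ofReal_inv, mul_assoc, mul_inv_cancel₀ hn0, mul_one]
  refine one_of h hM (e := ((‖x i0‖⁻¹ : ℝ) : ℂ) • x i0) ?_ (fun j => hback _ (hx j))
    (fun j => hback _ (hy j)) (fun j => hback _ (hz j))
  have : ‖x i0‖ ≠ 0 := norm_ne_zero_iff.2 hi0
  simp [norm_smul, this]

/-- zero diagonal, `t > 0`: no strict maximum at the index 0 -/
theorem case1_0 [FiniteDimensional ℂ V] (h : IsCub Φ) {x y z : Fin 3 → V} (hM : Mx Φ x y z)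
    (hd : ∀ i, inner ℂ (x i) (y i) = 0) (h0 : ∀ i, x i ≠ 0 ∧ y i ≠ 0) :
    ¬ (‖x 1‖ < ‖x 0‖ ∧ ‖x 2‖ < ‖x 0‖) := by
  rintro ⟨h1, h2⟩
  obtain ⟨-, -, t01, t12⟩ := zd0 h hM hd
  have px : ∀ i, 0 < ‖x i‖ := fun i => norm_pos_iff.2 (h0 i).1
  have py : ∀ i, 0 < ‖y i‖ := fun i => norm_pos_iff.2 (h0 i).2
  have hzne : ∀ i j k : Fin 3, i ≠ j → j ≠ k → i ≠ k → z k ≠ 0 := by
    intro i j k a b c hz
    have B := (zdk h hM hd i j k a b c).2
    rw [hz, norm_zero] at B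
    have : 0 < Q x y i j := by
      unfold Q
      apply Real.sqrt_pos.2
      have := mul_pos (px i) (py j)
      have := mul_pos (px j) (py i)
      positivity
    linarith
  have lt1 : ‖y 0‖ < ‖y 1‖ := by
    by_contra hc
    push Not at hc
    have := mul_le_mul_of_nonneg_left hc (px 1).le
    have := mul_lt_mul_of_pos_right h1 (py 0)
    linarith
  have lt2 : ‖y 0‖ < ‖y 2‖ := by
    by_contra hc
    push Not at hc
    have := mul_le_mul_of_nonneg_left hc (px 2).le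
    have := mul_lt_mul_of_pos_right h2 (py 0)
    linarith
  obtain ⟨p, hp, ho1⟩ := pair_eq h (z := z 2) (x1 := x 0) (y1 := y 0) (x2 := x 1) (y2 := y 1)
    (hzne 0 1 2 (by decide) (by decide) (by decide)) (hd 0) (hd 1) (h0 0).1 (h0 1).1 (h0 0).2
    (h0 1).2 (mul_lt_mul'' h1 lt1 (norm_nonneg _) (norm_nonneg _))
    (zdk h hM hd 0 1 2 (by decide) (by decide) (by decide)).1.ge
  obtain ⟨q, hq, ho2⟩ := pair_eq h (z := z 1) (x1 := x 0) (y1 := y 0) (x2 := x 2) (y2 := y 2)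
    (hzne 0 2 1 (by decide) (by decide) (by decide)) (hd 0) (hd 2) (h0 0).1 (h0 2).1 (h0 0).2
    (h0 2).2 (mul_lt_mul'' h2 lt2 (norm_nonneg _) (norm_nonneg _))
    (zdk h hM hd 0 2 1 (by decide) (by decide) (by decide)).1.ge
  have hpn : p ≠ 0 := by
    intro hp0
    rw [hp0, zero_smul] at hp
    exact (h0 1).2 hp
  have hr : 0 < ‖p‖ ^ 2 + ‖q‖ ^ 2 := by
    have := norm_pos_iff.2 hpn
    positivity
  set r : ℝ := Real.sqrt (‖p‖ ^ 2 + ‖q‖ ^ 2) with hrd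
  have hr2 : r ^ 2 = ‖p‖ ^ 2 + ‖q‖ ^ 2 := Real.sq_sqrt hr.le
  have hr0 : 0 < r := Real.sqrt_pos.2 hr
  have hrc : (r : ℂ) ≠ 0 := by exact_mod_cast hr0.ne'
  set c : ℂ := q / r with hc
  set d : ℂ := -p / r with hdd
  have hcd : ‖c‖ ^ 2 + ‖d‖ ^ 2 = 1 := by
    rw [hc, hdd, norm_div, norm_div, norm_neg, Complex.norm_real, Real.norm_of_nonneg hr0.le,
      div_pow, div_pow, ← add_div, hr2, add_comm (‖q‖ ^ 2), div_self hr.ne']
  have hcpd : c * p + d * q = 0 := by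
    rw [hc, hdd]
    field_simp
    ring
  have y1' : mact (M12 c d) y 1 = 0 := by
    rw [M12_one, hp, hq, smul_smul, smul_smul, ← add_smul, hcpd, zero_smul]
  have x2' : mact (M12 c d) x 2 = (-conj d) • x 1 + conj c • x 2 := by
    simp [mact_apply, M12]
  have y2' : mact (M12 c d) y 2 = (-conj d * p + conj c * q) • x 0 := by
    have : mact (M12 c d) y 2 = (-conj d) • y 1 + conj c • y 2 := by
      simp [mact_apply, M12]
    rw [this, hp, hq, smul_smul, smul_smul, ← add_smul]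
  have hd' : ∀ i, inner ℂ (mact (M12 c d) x i) (mact (M12 c d) y i) = 0 := by
    intro i
    fin_cases i
    · show inner ℂ (mact (M12 c d) x 0) (mact (M12 c d) y 0) = 0
      rw [M12_zero, M12_zero]; exact hd 0
    · show inner ℂ (mact (M12 c d) x 1) (mact (M12 c d) y 1) = 0
      rw [y1', inner_zero_right]
    · show inner ℂ (mact (M12 c d) x 2) (mact (M12 c d) y 2) = 0
      have e1 : inner ℂ (x 1) (x 0) = 0 := by
        rw [← inner_conj_symm, ho1, map_zero]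
      have e2 : inner ℂ (x 2) (x 0) = 0 := by
        rw [← inner_conj_symm, ho2, map_zero]
      rw [x2', y2', inner_smul_right, inner_add_left, inner_smul_left, inner_smul_left, e1, e2]
      simp
  obtain ⟨-, -, t01', -⟩ := zd0 h (hM.mact (M12_unitary hcd)) hd'
  rw [M12_zero, M12_zero, y1', norm_zero, mul_zero] at t01'
  have := mul_pos (px 0) (py 0)
  linarith

/-- zero diagonal -/
theorem E1 [FiniteDimensional ℂ V] (h : IsCub Φ) {x y z : Fin 3 → V} (hM : Mx Φ x y z)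
    (hd : ∀ i, inner ℂ (x i) (y i) = 0) :
    One Φ x y z ∨ ∀ i, ‖x i‖ ^ 2 = 1 / 3 ∧ ‖y i‖ ^ 2 = 1 / 3 := by
  obtain ⟨-, -, t01, t12⟩ := zd0 h hM hd
  by_cases ht : ‖x 0‖ * ‖y 0‖ = 0
  · left
    apply case0 h hM hd
    intro i
    have : ‖x i‖ * ‖y i‖ = 0 := by
      fin_cases i
      · exact ht
      · exact t01 ▸ ht
      · exact t12 ▸ t01 ▸ ht
    rcases mul_eq_zero.1 this with h1 | h1
    · exact Or.inl (norm_eq_zero.1 h1)
    · exact Or.inr (norm_eq_zero.1 h1)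
  right
  have h0 : ∀ i, x i ≠ 0 ∧ y i ≠ 0 := by
    intro i
    have h1 : ‖x i‖ * ‖y i‖ ≠ 0 := by
      fin_cases i
      · exact ht
      · exact fun h5 => ht (t01.trans h5)
      · exact fun h5 => ht (t01.trans (t12.trans h5))
    constructor
    · intro h2; apply h1; rw [h2, norm_zero, zero_mul]
    · intro h2; apply h1; rw [h2, norm_zero, mul_zero]
  have hd2 : ∀ i, inner ℂ (y i) (x i) = 0 := by
    intro i
    rw [← inner_conj_symm, hd i, map_zero]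
  have h0' : ∀ i, y i ≠ 0 ∧ x i ≠ 0 := fun i => ⟨(h0 i).2, (h0 i).1⟩
  have a0 := case1_0 h hM hd h0
  have a1 := case1_0 h hM.rot (fun i => hd (i + 1)) (fun i => h0 (i + 1))
  have a2 := case1_0 h hM.rot.rot (fun i => hd (i + 1 + 1)) (fun i => h0 (i + 1 + 1))
  have hM2 := hM.swap12 h
  have b0 := case1_0 h hM2 hd2 h0'
  have b1 := case1_0 h hM2.rot (fun i => hd2 (i + 1)) (fun i => h0' (i + 1))
  have b2 := case1_0 h hM2.rot.rot (fun i => hd2 (i + 1 + 1)) (fun i => h0' (i + 1 + 1))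
  simp only [rot0, rot1, rot2] at a1 a2 b1 b2
  have px : ∀ i, 0 < ‖x i‖ := fun i => norm_pos_iff.2 (h0 i).1
  have py : ∀ i, 0 < ‖y i‖ := fun i => norm_pos_iff.2 (h0 i).2
  -- the order is reversed
  have rev : ∀ i j : Fin 3, ‖x i‖ * ‖y i‖ = ‖x j‖ * ‖y j‖ → ‖x i‖ < ‖x j‖ → ‖y j‖ < ‖y i‖ := by
    intro i j he hl
    by_contra hc
    push Not at hc
    have k1 := mul_le_mul_of_nonneg_left hc (px i).le
    have k2 := mul_lt_mul_of_pos_right hl (py j)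
    linarith
  have t02 := t01.trans t12
  have hx2 : ‖x 0‖ ^ 2 + ‖x 1‖ ^ 2 + ‖x 2‖ ^ 2 = 1 := by rw [← nm_sq, hM.1, one_pow]
  have hy2 : ‖y 0‖ ^ 2 + ‖y 1‖ ^ 2 + ‖y 2‖ ^ 2 = 1 := by rw [← nm_sq, hM.2.1, one_pow]
  have eqs : ‖x 0‖ = ‖x 1‖ ∧ ‖x 1‖ = ‖x 2‖ := by
    rcases lt_trichotomy ‖x 0‖ ‖x 1‖ with c1 | c1 | c1
    · rcases lt_trichotomy ‖x 1‖ ‖x 2‖ with c2 | c2 | c2
      · exact absurd ⟨c1.trans c2, c2⟩ a2
      · exact absurd ⟨rev 0 1 t01 c1, rev 0 2 t02 (c2 ▸ c1)⟩ b0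
      · exact absurd ⟨c2, c1⟩ a1
    · rcases lt_trichotomy ‖x 1‖ ‖x 2‖ with c2 | c2 | c2
      · exact absurd ⟨c1 ▸ c2, c2⟩ a2
      · exact ⟨c1, c2⟩
      · exact absurd ⟨rev 2 0 t02.symm (c1 ▸ c2), rev 2 1 t12.symm c2⟩ b2
    · rcases lt_trichotomy ‖x 1‖ ‖x 2‖ with c2 | c2 | c2
      · exact absurd ⟨rev 1 2 t12 c2, rev 1 0 t01.symm c1⟩ b1
      · exact absurd ⟨c1, c2 ▸ c1⟩ a0
      · exact absurd ⟨c1, c2.trans c1⟩ a0
  have eqy : ‖y 0‖ = ‖y 1‖ ∧ ‖y 1‖ = ‖y 2‖ := by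
    constructor
    · rw [eqs.1] at t01
      exact mul_left_cancel₀ (px 1).ne' t01
    · rw [eqs.2] at t12
      exact mul_left_cancel₀ (px 2).ne' t12
  intro i
  rw [eqs.1, eqs.2] at hx2
  rw [eqy.1, eqy.2] at hy2
  have f0 : ‖x 0‖ ^ 2 = 1 / 3 ∧ ‖y 0‖ ^ 2 = 1 / 3 := by
    rw [eqs.1, eqs.2, eqy.1, eqy.2]; constructor <;> linarith
  have f1 : ‖x 1‖ ^ 2 = 1 / 3 ∧ ‖y 1‖ ^ 2 = 1 / 3 := by
    rw [eqs.2, eqy.2]; constructor <;> linarith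
  have f2 : ‖x 2‖ ^ 2 = 1 / 3 ∧ ‖y 2‖ ^ 2 = 1 / 3 := by constructor <;> linarith
  fin_cases i
  · exact f0
  · exact f1
  · exact f2

/-- zero at the first place -/
theorem E2 [FiniteDimensional ℂ V] (h : IsCub Φ) {x y z : Fin 3 → V} (hM : Mx Φ x y z)
    (hd : inner ℂ (x 0) (y 0) = 0) :
    One Φ x y z ∨ (‖x 0‖ ^ 2 = 1 / 3 ∧ ‖y 0‖ ^ 2 = 1 / 3) := by
  obtain ⟨c, d, hcd, hfr⟩ := exists_frame1 x y (hM.orth h) hd
  rcases E1 h (hM.mact (M12_unitary hcd)) hfr with h1 | h1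
  · exact Or.inl (One.of_mact (M12_unitary hcd) h1)
  · right
    have := h1 0
    rwa [M12_zero, M12_zero] at this

end Pool.Agent.Helper53.T5
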