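import Pool.Agent.Helper53.T5.EqB

/-!
# Equality in Theorem A: the dichotomy
-/

set_option autoImplicit false

open scoped ComplexConjugate

namespace Pool.Agent.Helper53.T5

open Pool.Agent.Helper76.T5

variable {V : Type*} [NormedAddCommGroup V] [InnerProductSpace ℂ V]
variable {Φ : V →ₗ[ℂ] V →ₗ[ℂ] V →ₗ[ℂ] ℂ}

/-- equality in the inequality of the means -/
theorem amgm3 {a b c : ℝ} (ha : 0 ≤ a) (hb : 0 ≤ b) (hc : 0 ≤ c) (hs : a + b + c = 3)
    (hp : 1 ≤ a * b * c) : c = 1 := by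
  have h1 : a * b ≤ ((3 - c) / 2) ^ 2 := by
    have : 3 - c = a + b := by linarith
    rw [this]
    nlinarith [sq_nonneg (a - b)]
  have h2 : a * b * c ≤ ((3 - c) / 2) ^ 2 * c := mul_le_mul_of_nonneg_right h1 hc
  have h3 : (c - 1) ^ 2 * (4 - c) ≤ 0 := by nlinarith
  have h4 : 0 < 4 - c := by linarith
  have h5 : (c - 1) ^ 2 ≤ 0 := by
    by_contra h6
    push Not at h6
    nlinarith [mul_pos h6 h4]
  have h6 : c - 1 = 0 := pow_eq_zero_iff two_ne_zero |>.1 (le_antisymm h5 (sq_nonneg _))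
  linarith

theorem Mx_of [FiniteDimensional ℂ V] (h : IsCub Φ) {x y z : Fin 3 → V}
    (hs : nm x ^ 2 + nm y ^ 2 + nm z ^ 2 = 3) (hd : ‖dtf Φ x y z‖ = 1) : Mx Φ x y z := by
  have h1 := h.thmA x y z
  rw [hd] at h1
  have h2 : 1 ≤ nm x ^ 2 * nm y ^ 2 * nm z ^ 2 := by
    have := one_le_pow₀ (n := 2) h1
    calc (1 : ℝ) ≤ (nm x * nm y * nm z) ^ 2 := this
      _ = _ := by ring
  have px := sq_nonneg (nm x)
  have py := sq_nonneg (nm y)
  have pz := sq_nonneg (nm z)
  have sq1 : ∀ t : ℝ, 0 ≤ t → t ^ 2 = 1 → t = 1 := by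
    intro t ht h
    nlinarith
  refine ⟨sq1 _ (nm_nonneg _) ?_, sq1 _ (nm_nonneg _) ?_, sq1 _ (nm_nonneg _) ?_, hd⟩
  · exact amgm3 py pz px (by linarith) (by linarith)
  · exact amgm3 pz px py (by linarith) (by linarith)
  · exact amgm3 px py pz (by linarith) (by linarith)

/-- columns -/
def col (M : Fin 3 → Fin 3 → V) (j : Fin 3) : Fin 3 → V := fun i => M i j

theorem dtf_col (h : IsCub Φ) (M : Fin 3 → Fin 3 → V) :
    dtf Φ (col M 0) (col M 1) (col M 2) = dtf Φ (M 0) (M 1) (M 2) := by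
  unfold dtf col
  have c1 : ∀ a b d : V, Φ a b d = Φ d a b := fun a b d => by rw [h.s23, h.s12]
  rw [h.s23 (M 0 0) (M 2 1) (M 1 2), h.s12 (M 1 0) (M 0 1) (M 2 2), c1 (M 1 0) (M 2 1) (M 0 2),
    ← c1 (M 0 1) (M 1 2) (M 2 0), c1 (M 2 0) (M 1 1) (M 0 2), h.s23 (M 0 2) (M 2 0) (M 1 1)]
  ring

/-- maximal matrices -/
def MX (Φ : V →ₗ[ℂ] V →ₗ[ℂ] V →ₗ[ℂ] ℂ) (M : Fin 3 → Fin 3 → V) : Prop :=
  Mx Φ (M 0) (M 1) (M 2)

theorem MX.cols [FiniteDimensional ℂ V] (h : IsCub Φ) {M : Fin 3 → Fin 3 → V} (hM : MX Φ M) :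
    Mx Φ (col M 0) (col M 1) (col M 2) := by
  refine Mx_of h ?_ (by rw [dtf_col h, hM.2.2.2])
  have h0 := nm_sq (M 0)
  have h1 := nm_sq (M 1)
  have h2 := nm_sq (M 2)
  rw [hM.1] at h0
  rw [hM.2.1] at h1
  rw [hM.2.2.1] at h2
  rw [nm_sq, nm_sq, nm_sq]
  unfold col
  linarith

/-- mixing the rows -/
def rmix (A : Matrix (Fin 3) (Fin 3) ℂ) (M : Fin 3 → Fin 3 → V) : Fin 3 → Fin 3 → V :=
  fun i j => mact A (col M j) i

theorem col_rmix (A : Matrix (Fin 3) (Fin 3) ℂ) (M : Fin 3 → Fin 3 → V) (j : Fin 3) :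
    col (rmix A M) j = mact A (col M j) := rfl

theorem MX.rmix [FiniteDimensional ℂ V] (h : IsCub Φ) {A : Matrix (Fin 3) (Fin 3) ℂ}
    (hA : A.conjTranspose * A = 1) {M : Fin 3 → Fin 3 → V} (hM : MX Φ M) :
    MX Φ (Pool.Agent.Helper53.T5.rmix A M) := by
  have h1 := (hM.cols h).mact hA
  have h2 : Mx Φ (col (Pool.Agent.Helper53.T5.rmix A M) 0)
      (col (Pool.Agent.Helper53.T5.rmix A M) 1) (col (Pool.Agent.Helper53.T5.rmix A M) 2) := h1
  exact MX.cols h (M := fun i j => Pool.Agent.Helper53.T5.rmix A M j i) h2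

/-- `One` for matrices -/
def OneM (Φ : V →ₗ[ℂ] V →ₗ[ℂ] V →ₗ[ℂ] ℂ) (M : Fin 3 → Fin 3 → V) : Prop :=
  ∃ (U : Matrix (Fin 3) (Fin 3) ℂ) (e : V), U.conjTranspose * U = 1 ∧ ‖e‖ = 1 ∧
    ‖Φ e e e‖ = 1 ∧ ∀ i j, M i j = U i j • e

theorem OneM_iff (M : Fin 3 → Fin 3 → V) : OneM Φ M ↔ One Φ (M 0) (M 1) (M 2) := by
  constructor
  · rintro ⟨U, e, h1, h2, h3, h4⟩
    exact ⟨U, e, h1, h2, h3, h4 0, h4 1, h4 2⟩
  · rintro ⟨U, e, h1, h2, h3, h4, h5, h6⟩
    refine ⟨U, e, h1, h2, h3, ?_⟩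
    intro i j
    fin_cases i
    · exact h4 j
    · exact h5 j
    · exact h6 j

theorem OneM.of_rmix {A : Matrix (Fin 3) (Fin 3) ℂ}
    (hA : A.conjTranspose * A = 1) {M : Fin 3 → Fin 3 → V}
    (h : OneM Φ (rmix A M)) : OneM Φ M := by
  obtain ⟨U, e, hU, he, hP, hM⟩ := h
  have hA' : A * A.conjTranspose = 1 := mul_eq_one_comm.1 hA
  refine ⟨A.conjTranspose * U, e, ?_, he, hP, ?_⟩
  · rw [Matrix.conjTranspose_mul, Matrix.conjTranspose_conjTranspose, Matrix.mul_assoc,
      ← Matrix.mul_assoc A, hA', Matrix.one_mul, hU]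
  · intro i j
    have h1 : col M j = mact A.conjTranspose (mact A (col M j)) := by
      rw [mact_mul, hA, mact_one]
    have h2 : M i j = mact A.conjTranspose (mact A (col M j)) i := by
      rw [← h1]; rfl
    rw [h2]
    unfold mact
    rw [Matrix.mul_apply, Finset.sum_smul]
    refine Finset.sum_congr rfl fun k _ => ?_
    have := hM k j
    unfold rmix mact at this
    rw [this, smul_smul]

/-- an orthogonal diagonalisation -/
theorem exists_diag (f : Fin 3 → V) :
    ∃ A : Matrix (Fin 3) (Fin 3) ℂ, A.conjTranspose * A = 1 ∧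
      ∀ i k, i ≠ k → inner ℂ (mact A f i) (mact A f k) = 0 := by
  set G : Matrix (Fin 3) (Fin 3) ℂ := Matrix.of fun i k => inner ℂ (f i) (f k) with hG
  have hH : G.IsHermitian := by
    ext i k
    simp [hG, Matrix.conjTranspose_apply]
  have hsp := hH.conjStarAlgAut_star_eigenvectorUnitary
  rw [Unitary.conjStarAlgAut_star_apply] at hsp
  set U : Matrix (Fin 3) (Fin 3) ℂ := (hH.eigenvectorUnitary : Matrix (Fin 3) (Fin 3) ℂ) with hU
  have hUU : U.conjTranspose * U = 1 := by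
    have := Unitary.coe_star_mul_self hH.eigenvectorUnitary
    exact this
  have hUU' : U * U.conjTranspose = 1 := mul_eq_one_comm.1 hUU
  refine ⟨U.transpose, ?_, ?_⟩
  · have : U.transpose.conjTranspose = U.conjTranspose.transpose := by
      ext i j
      simp [Matrix.conjTranspose_apply]
    rw [this, ← Matrix.transpose_mul, hUU', Matrix.transpose_one]
  · intro i k hik
    have h1 : inner ℂ (mact U.transpose f i) (mact U.transpose f k)
        = (U.conjTranspose * G * U) i k := by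
      unfold mact
      rw [Matrix.mul_apply, sum_inner]
      have e1 : ∀ a, inner ℂ (U.transpose i a • f a) (∑ j, U.transpose k j • f j)
          = ∑ b, conj (U a i) * G a b * U b k := by
        intro a
        rw [inner_sum]
        refine Finset.sum_congr rfl fun b _ => ?_
        rw [inner_smul_left, inner_smul_right, Matrix.transpose_apply, Matrix.transpose_apply]
        simp only [hG, Matrix.of_apply]
        ring
      rw [Finset.sum_congr rfl fun a _ => e1 a, Finset.sum_comm]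
      refine Finset.sum_congr rfl fun b _ => ?_
      rw [Matrix.mul_apply, Finset.sum_mul]
      refine Finset.sum_congr rfl fun a _ => ?_
      rw [Matrix.conjTranspose_apply]
      rfl
    have h2 : (U.conjTranspose * G * U) i k = 0 := by
      have h3 : U.conjTranspose * G * U
          = Matrix.diagonal (RCLike.ofReal ∘ hH.eigenvalues) := hsp
      rw [h3, Matrix.diagonal_apply_ne _ hik]
    rw [h1, h2]

/-- transport of a scalar Gram matrix -/
theorem gram_back {A : Matrix (Fin 3) (Fin 3) ℂ} (hA : A.conjTranspose * A = 1) (f : Fin 3 → V)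
    (hg : ∀ i k, inner ℂ (mact A f i) (mact A f k) = if i = k then (1 / 3 : ℂ) else 0) :
    ∀ i k, inner ℂ (f i) (f k) = if i = k then (1 / 3 : ℂ) else 0 := by
  intro i k
  have h1 : ∀ i, f i = mact A.conjTranspose (mact A f) i := by
    intro i
    rw [mact_mul, hA, mact_one]
  have h2 : inner ℂ (f i) (f k) = inner ℂ (mact A.conjTranspose (mact A f) i)
      (mact A.conjTranspose (mact A f) k) := by
    rw [← h1, ← h1]
  rw [h2]
  set g := mact A f with hgd
  unfold mact
  rw [sum_inner]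
  have e1 : ∀ a, inner ℂ (A.conjTranspose i a • g a) (∑ j, A.conjTranspose k j • g j)
      = A a i * conj (A a k) * (1 / 3 : ℂ) := by
    intro a
    rw [inner_sum]
    have e2 : ∀ b, inner ℂ (A.conjTranspose i a • g a) (A.conjTranspose k b • g b)
        = if a = b then A a i * conj (A a k) * (1 / 3 : ℂ) else 0 := by
      intro b
      rw [inner_smul_left, inner_smul_right, hg, Matrix.conjTranspose_apply,
        Matrix.conjTranspose_apply]
      by_cases hab : a = b
      · subst hab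
        simp only [if_true, RCLike.star_def, Complex.conj_conj]
        ring
      · simp only [if_neg hab, mul_zero]
    rw [Finset.sum_congr rfl fun b _ => e2 b]
    simp
  rw [Finset.sum_congr rfl fun a _ => e1 a, ← Finset.sum_mul]
  have h3 : ∑ a, A a i * conj (A a k) = if i = k then 1 else 0 := by
    have h4 := congrFun (congrFun hA k) i
    rw [Matrix.mul_apply, Matrix.one_apply] at h4
    have h5 : ∑ a, A a i * conj (A a k) = ∑ a, A.conjTranspose k a * A a i := by
      refine Finset.sum_congr rfl fun a _ => ?_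
      rw [Matrix.conjTranspose_apply, mul_comm]
      rfl
    rw [h5, h4]
    by_cases hik : i = k
    · rw [if_pos hik, if_pos hik.symm]
    · rw [if_neg hik, if_neg (Ne.symm hik)]
  rw [h3]
  by_cases hik : i = k
  · rw [if_pos hik, if_pos hik, one_mul]
  · rw [if_neg hik, if_neg hik, zero_mul]

/-- the first column of a maximal matrix -/
theorem E3a [FiniteDimensional ℂ V] (h : IsCub Φ) {M : Fin 3 → Fin 3 → V} (hM : MX Φ M)
    (h1 : ¬ OneM Φ M) :
    ∀ i k, inner ℂ (M i 0) (M k 0) = if i = k then (1 / 3 : ℂ) else 0 := by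
  obtain ⟨A, hA, hdg⟩ := exists_diag (col M 0)
  have hN := hM.rmix h hA
  have hN1 : ¬ OneM Φ (rmix A M) := fun hc => h1 (OneM.of_rmix hA hc)
  have h2 : (‖rmix A M 0 0‖ ^ 2 = 1 / 3 ∧ ‖rmix A M 1 0‖ ^ 2 = 1 / 3) := by
    rcases E2 h hN (hdg 0 1 (by decide)) with h3 | h3
    · exact absurd ((OneM_iff _).2 h3) hN1
    · exact h3
  have h3 : nm (mact A (col M 0)) = 1 := by rw [nm_mact hA]; exact (hM.cols h).1
  have h4 := nm_sq (mact A (col M 0))
  rw [h3] at h4
  have g0 : ‖mact A (col M 0) 0‖ ^ 2 = 1 / 3 := h2.1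
  have g1 : ‖mact A (col M 0) 1‖ ^ 2 = 1 / 3 := h2.2
  have g2 : ‖mact A (col M 0) 2‖ ^ 2 = 1 / 3 := by linarith
  refine gram_back hA (col M 0) ?_
  intro i k
  by_cases hik : i = k
  · subst hik
    rw [if_pos rfl, inner_self_eq_norm_sq_to_K]
    have : ‖mact A (col M 0) i‖ ^ 2 = 1 / 3 := by
      fin_cases i
      · exact g0
      · exact g1
      · exact g2
    have h5 : ((‖mact A (col M 0) i‖ ^ 2 : ℝ) : ℂ) = ((1 / 3 : ℝ) : ℂ) := by rw [this]
    push_cast at h5
    exact h5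
  · rw [if_neg hik, hdg i k hik]

/-- the first column after a rotation of the first two columns -/
theorem E3b [FiniteDimensional ℂ V] (h : IsCub Φ) {M : Fin 3 → Fin 3 → V} (hM : MX Φ M)
    (h1 : ¬ OneM Φ M) {c d : ℂ} (hcd : ‖c‖ ^ 2 + ‖d‖ ^ 2 = 1) :
    ∀ i k, inner ℂ (c • M i 0 + d • M i 1) (c • M k 0 + d • M k 1)
      = if i = k then (1 / 3 : ℂ) else 0 := by
  have hN : MX Φ (fun i => mact (M01 c d) (M i)) := Mx.mact (M01_unitary hcd) hM
  have hN1 : ¬ OneM Φ (fun i => mact (M01 c d) (M i)) := by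
    intro hc
    apply h1
    rw [OneM_iff] at hc ⊢
    exact One.of_mact (M01_unitary hcd) hc
  intro i k
  have := E3a h hN hN1 i k
  simp only [M01_zero] at this
  exact this

/-- the first two columns -/
theorem E4 [FiniteDimensional ℂ V] (h : IsCub Φ) {M : Fin 3 → Fin 3 → V} (hM : MX Φ M)
    (h1 : ¬ OneM Φ M) (i k : Fin 3) :
    inner ℂ (M i 0) (M k 0) = (if i = k then (1 / 3 : ℂ) else 0) ∧
      inner ℂ (M i 0) (M k 1) = 0 := by
  have a0 := E3a h hM h1 i k
  have a1 := E3b h hM h1 (c := 0) (d := 1) (by simp) i k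
  have a2 := E3b h hM h1 (c := (3 / 5 : ℂ)) (d := (4 / 5 : ℂ)) (by norm_num) i k
  have a3 := E3b h hM h1 (c := (3 / 5 : ℂ)) (d := (4 / 5 : ℂ) * Complex.I)
    (by rw [norm_mul, Complex.norm_I]; norm_num) i k
  refine ⟨a0, ?_⟩
  simp only [zero_smul, zero_add, one_smul] at a1
  rw [inner_add_left, inner_add_right, inner_add_right, inner_smul_left, inner_smul_left,
    inner_smul_left, inner_smul_left, inner_smul_right, inner_smul_right, inner_smul_right,
    inner_smul_right, a0, a1] at a2 a3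
  have e1 : conj (3 / 5 : ℂ) = 3 / 5 := by
    rw [map_div₀, Complex.conj_ofNat, Complex.conj_ofNat]
  have e2 : conj (4 / 5 : ℂ) = 4 / 5 := by
    rw [map_div₀, Complex.conj_ofNat, Complex.conj_ofNat]
  rw [e1, e2] at a2
  rw [e1, map_mul, e2, Complex.conj_I] at a3
  set P : ℂ := inner ℂ (M i 0) (M k 1)
  set R : ℂ := inner ℂ (M i 1) (M k 0)
  set δ : ℂ := if i = k then (1 / 3 : ℂ) else 0
  have b2 : P + R = 0 := by linear_combination (25 / 12) * a2
  have hI : Complex.I * Complex.I = -1 := Complex.I_mul_I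
  have b3 : Complex.I * (P - R) = 0 := by
    linear_combination (25 / 12) * a3 + (4 / 3 : ℂ) * δ * hI
  have b4 : P - R = 0 := by
    rcases mul_eq_zero.1 b3 with h5 | h5
    · exact absurd h5 Complex.I_ne_zero
    · exact h5
  linear_combination (1 / 2) * b2 + (1 / 2) * b4

theorem OneM.of_rot {M : Fin 3 → Fin 3 → V} (h : OneM Φ (fun i => rot (M i))) : OneM Φ M := by
  obtain ⟨U, e, hU, he, hP, hM⟩ := h
  have hU' : U * U.conjTranspose = 1 := mul_eq_one_comm.1 hU
  set W : Matrix (Fin 3) (Fin 3) ℂ := Matrix.of fun i j => U i (j + 2) with hW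
  have hW0 : ∀ i, W i 0 = U i 2 := fun i => rfl
  have hW1 : ∀ i, W i 1 = U i 0 := fun i => rfl
  have hW2 : ∀ i, W i 2 = U i 1 := fun i => rfl
  refine ⟨W, e, ?_, he, hP, ?_⟩
  · apply mul_eq_one_comm.1
    ext i j
    have := congrFun (congrFun hU' i) j
    rw [Matrix.mul_apply, Fin.sum_univ_three] at this ⊢
    rw [Matrix.conjTranspose_apply, Matrix.conjTranspose_apply, Matrix.conjTranspose_apply,
      hW0, hW1, hW2, hW0, hW1, hW2]
    rw [Matrix.conjTranspose_apply, Matrix.conjTranspose_apply, Matrix.conjTranspose_apply] at this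
    rw [← this]
    ring
  · intro i j
    have h0 := hM i 0
    have h1 := hM i 1
    have h2 := hM i 2
    simp only [rot0, rot1, rot2] at h0 h1 h2
    fin_cases j
    · exact h2
    · exact h0
    · exact h1

/-- **Equality in Theorem A.** -/
theorem eqA [FiniteDimensional ℂ V] (h : IsCub Φ) (M : Fin 3 → Fin 3 → V)
    (hs : ∑ i, ∑ j, ‖M i j‖ ^ 2 = 3) (hd : ‖dtf Φ (M 0) (M 1) (M 2)‖ = 1) :
    (∃ (U : Matrix (Fin 3) (Fin 3) ℂ) (e : V), U.conjTranspose * U = 1 ∧ ‖e‖ = 1 ∧
      ‖Φ e e e‖ = 1 ∧ ∀ i j, M i j = U i j • e) ∨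
    (∀ i j k l, inner ℂ (M i j) (M k l) = if i = k ∧ j = l then (1 / 3 : ℂ) else 0) := by
  have hM : MX Φ M := by
    refine Mx_of h ?_ hd
    rw [nm_sq, nm_sq, nm_sq]
    simp only [Fin.sum_univ_three] at hs
    linarith
  by_cases h1 : OneM Φ M
  · exact Or.inl h1
  right
  have hMr : MX Φ (fun i => rot (M i)) := Mx.rot hM
  have h1r : ¬ OneM Φ (fun i => rot (M i)) := fun hc => h1 hc.of_rot
  have hMr2 : MX Φ (fun i => rot (rot (M i))) := Mx.rot hMr
  have h1r2 : ¬ OneM Φ (fun i => rot (rot (M i))) := fun hc => h1r (OneM.of_rot hc)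
  have a0 := E4 h hM h1
  have a1 := E4 h hMr h1r
  have a2 := E4 h hMr2 h1r2
  simp only [rot0, rot1, rot2] at a1 a2
  have sw : ∀ i j k l, inner ℂ (M k l) (M i j) = (0 : ℂ) → inner ℂ (M i j) (M k l) = (0 : ℂ) := by
    intro i j k l h5
    rw [← inner_conj_symm, h5, map_zero]
  intro i j k l
  fin_cases j <;> fin_cases l
  · have := (a0 i k).1
    simpa using this
  · have := (a0 i k).2
    simpa using this
  · have := sw _ _ _ _ (a2 k i).2
    simpa using this
  · have := sw _ _ _ _ (a0 k i).2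
    simpa using this
  · have := (a1 i k).1
    simpa using this
  · have := (a1 i k).2
    simpa using this
  · have := (a2 i k).2
    simpa using this
  · have := sw _ _ _ _ (a1 k i).2
    simpa using this
  · have := (a2 i k).1
    simpa using this

end Pool.Agent.Helper53.T5
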